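import Pool.Agent.Lib.MP_8050b7_ag.Fam.Lat

namespace Pool.Agent.Results.MP_8050b7_ag.MonomialFamily
open Pool.Agent.Lib.MP_8050b7_ag Pool.Agent.Lib.MP_8050b7_ag.Fam

/-- The reflection arrangement of `G(n,1,3)` with the further planes `x = τ y`, `τ ∈ T`, is
supersolvable, and `J^{(3)} ⊆ J^2` holds exactly in the listed cases; it fails for `|T| > n`. -/
theorem result (n : ℕ) (hn : 2 ≤ n) (T : Finset ℂ) (hT : ∀ τ ∈ T, τ ≠ 0 ∧ τ ^ n ≠ 1) :
    IsArrangement (arr n T) ∧ IsSupersolvable (arr n T) ∧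
      (symbPower (arr n T) 3 ≤ singIdeal (arr n T) ^ 2 ↔
        T.card < n ∨ (T.card = n ∧ (n = 2 ∨ ∏ τ ∈ T, -τ ≠ 1))) :=
  main hn hT

end Pool.Agent.Results.MP_8050b7_ag.MonomialFamily
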